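import Pool.Agent.helper59.BR.SpecH

/-!
# Row `brh:HPO` (MP_baa4d7_al, project BR): orthogonality of the vectors `(PP ψ ψ₀ u)_ψ`
-/

set_option autoImplicit false

namespace Pool.Agent.BR

open Pool.Agent.helper58.DC Pool.Agent.DI Pool.Agent.GR Pool.Agent.OB Pool.Agent.DR Pool.Agent.FI Pool.Agent.FI3 Pool.Agent.FI4 Pool.Agent.LE

theorem HPO_sw {α β γ : Type} (S : Finset β) (R : Finset α) (R' : Finset γ) (A : β → α → ℂ) (A' : β → γ → ℂ) (a : α → ℂ) (a' : γ → ℂ) :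
    ∑ ψ ∈ S, (∑ η ∈ R, A ψ η * (starRingEnd ℂ) (a η)) * (starRingEnd ℂ) (∑ η' ∈ R', A' ψ η' * (starRingEnd ℂ) (a' η')) =
      ∑ η ∈ R, ∑ η' ∈ R', (starRingEnd ℂ) (a η) * a' η' * ∑ ψ ∈ S, A ψ η * (starRingEnd ℂ) (A' ψ η') := by
  have h1 : ∀ ψ ∈ S, (∑ η ∈ R, A ψ η * (starRingEnd ℂ) (a η)) * (starRingEnd ℂ) (∑ η' ∈ R', A' ψ η' * (starRingEnd ℂ) (a' η')) =
      ∑ η ∈ R, ∑ η' ∈ R', (starRingEnd ℂ) (a η) * a' η' * (A ψ η * (starRingEnd ℂ) (A' ψ η')) := by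
    intro ψ _
    rw [map_sum, Finset.sum_mul_sum]
    refine Finset.sum_congr rfl fun η _ => Finset.sum_congr rfl fun η' _ => ?_
    rw [map_mul, Complex.conj_conj]
    ring
  rw [Finset.sum_congr rfl h1, Finset.sum_comm]
  refine Finset.sum_congr rfl fun η _ => ?_
  rw [Finset.sum_comm]
  refine Finset.sum_congr rfl fun η' _ => ?_
  rw [Finset.mul_sum]

theorem HPO (hHGR : HGR_stmt) (hZAX : ZAX_stmt) (hQEI : QEI_stmt) (hBLE : BLE_stmt) (hHNR : HNR_stmt) (hHTO : HTO_stmt) (hB2 : B2_stmt) :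
    HPO_stmt := by
  classical
  intro p M hS G _ _ D x θ χ lo ψ₀ hψ₀ u hu
  have hfB : (Bl M (⊤ : Subgroup G) θ).Finite := (hB2 G ⊤).1.subset fun ψ h => h.1
  have hfb : ∀ w : G, (Bl M (Cz (⊤ : Subgroup G) w) θ).Finite := fun w => (hB2 G (Cz ⊤ w)).1.subset fun ψ h => h.1
  have hPP : ∀ w : G, ∀ ψ ∈ hfB.toFinset, PP p M θ ψ ψ₀ w = ∑ η ∈ (hfb w).toFinset,
      az p (Cz (⊤ : Subgroup G) w) η ψ w * (starRingEnd ℂ) (az p (Cz (⊤ : Subgroup G) w) η ψ₀ w) := by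
    intro w ψ hψ
    rw [Set.Finite.mem_toFinset] at hψ
    rw [hHGR p M hS G θ w ψ hψ.1 ψ₀ hψ₀.1, finsum_mem_eq_finite_toFinset_sum _ (hfb w)]
  have hgen : ∀ u' : G, ∑ᶠ ψ ∈ Bl M (⊤ : Subgroup G) θ, PP p M θ ψ ψ₀ u * (starRingEnd ℂ) (PP p M θ ψ ψ₀ u') =
      ∑ η ∈ (hfb u).toFinset, ∑ η' ∈ (hfb u').toFinset,
        (starRingEnd ℂ) (az p (Cz (⊤ : Subgroup G) u) η ψ₀ u) * az p (Cz (⊤ : Subgroup G) u') η' ψ₀ u' *
          ∑ᶠ ψ ∈ Bl M (⊤ : Subgroup G) θ, az p (Cz (⊤ : Subgroup G) u) η ψ u * (starRingEnd ℂ) (az p (Cz (⊤ : Subgroup G) u') η' ψ u') := by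
    intro u'
    rw [finsum_mem_eq_finite_toFinset_sum _ hfB]
    have h1 : ∑ ψ ∈ hfB.toFinset, PP p M θ ψ ψ₀ u * (starRingEnd ℂ) (PP p M θ ψ ψ₀ u') =
        ∑ ψ ∈ hfB.toFinset, (∑ η ∈ (hfb u).toFinset, az p (Cz (⊤ : Subgroup G) u) η ψ u * (starRingEnd ℂ) (az p (Cz (⊤ : Subgroup G) u) η ψ₀ u)) *
          (starRingEnd ℂ) (∑ η' ∈ (hfb u').toFinset, az p (Cz (⊤ : Subgroup G) u') η' ψ u' * (starRingEnd ℂ) (az p (Cz (⊤ : Subgroup G) u') η' ψ₀ u')) :=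
      Finset.sum_congr rfl fun ψ hψ => by rw [hPP u ψ hψ, hPP u' ψ hψ]
    rw [h1, HPO_sw hfB.toFinset (hfb u).toFinset (hfb u').toFinset (fun ψ η => az p (Cz (⊤ : Subgroup G) u) η ψ u)
      (fun ψ η' => az p (Cz (⊤ : Subgroup G) u') η' ψ u') (fun η => az p (Cz (⊤ : Subgroup G) u) η ψ₀ u) (fun η' => az p (Cz (⊤ : Subgroup G) u') η' ψ₀ u')]
    refine Finset.sum_congr rfl fun η _ => Finset.sum_congr rfl fun η' _ => ?_
    rw [finsum_mem_eq_finite_toFinset_sum _ hfB]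
  refine ⟨?_, fun u' hu' ht => ?_⟩
  · -- `u` is a `p`-element
    have hpu : PEl p u := by
      obtain ⟨k, hk⟩ := lo.rt.dfa.pgrp ⟨u, hu⟩
      exact ⟨k, by simpa using congrArg Subtype.val hk⟩
    have huK : u ∈ Cz (⊤ : Subgroup G) u := mem_Cz.2 ⟨Subgroup.mem_top u, rfl⟩
    have hcen : Cen (Cz (⊤ : Subgroup G) u) u := fun l hl => ((mem_Cz.1 hl).2).symm
    have hθ : ∀ y, y ∉ Cz (⊤ : Subgroup G) u → θ y = 0 := by
      intro y hy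
      refine IrrOn_zero lo.rt.th fun hy' => hy (mem_Cz.2 ⟨Subgroup.mem_top y, ?_⟩)
      exact Subgroup.mem_centralizer_iff.1 hy' u hu
    have hsb : ∀ η ∈ Bl M (Cz (⊤ : Subgroup G) u) θ, SB M (⊤ : Subgroup G) η θ := fun η hη =>
      TRNb le_top (fun y hy => IrrOn_zero hη.1 hy) hθ hη.2
    obtain ⟨hBC, hBr⟩ := hBLE p M hS G (Cz (⊤ : Subgroup G) u) (Cz (⊤ : Subgroup G) u) le_rfl θ
    have hBq : Bq M (Cz (⊤ : Subgroup G) u) (Cz (⊤ : Subgroup G) u) θ = Bl M (Cz (⊤ : Subgroup G) u) θ := rfl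
    rw [hBq] at hBC
    obtain ⟨hQ1, -⟩ := hQEI p M hS G (Cz (⊤ : Subgroup G) u) (Bl M (Cz (⊤ : Subgroup G) u) θ) hBC
    have hmem : ∀ η, η ∈ (hfb u).toFinset ↔ η ∈ Bl M (Cz (⊤ : Subgroup G) u) θ := fun η => Set.Finite.mem_toFinset _
    rw [hgen u]
    have hin : ∀ η ∈ (hfb u).toFinset, ∑ η' ∈ (hfb u).toFinset,
        (starRingEnd ℂ) (az p (Cz (⊤ : Subgroup G) u) η ψ₀ u) * az p (Cz (⊤ : Subgroup G) u) η' ψ₀ u *
          ∑ᶠ ψ ∈ Bl M (⊤ : Subgroup G) θ, az p (Cz (⊤ : Subgroup G) u) η ψ u * (starRingEnd ℂ) (az p (Cz (⊤ : Subgroup G) u) η' ψ u) =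
        az p (Cz (⊤ : Subgroup G) u) η ψ₀ u * (starRingEnd ℂ) (az p (Cz (⊤ : Subgroup G) u) η ψ₀ u) := by
      intro η hη
      have hη' := (hmem η).1 hη
      have h1 : ∀ η' ∈ (hfb u).toFinset, (starRingEnd ℂ) (az p (Cz (⊤ : Subgroup G) u) η ψ₀ u) * az p (Cz (⊤ : Subgroup G) u) η' ψ₀ u *
          ∑ᶠ ψ ∈ Bl M (⊤ : Subgroup G) θ, az p (Cz (⊤ : Subgroup G) u) η ψ u * (starRingEnd ℂ) (az p (Cz (⊤ : Subgroup G) u) η' ψ u) =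
          (starRingEnd ℂ) (az p (Cz (⊤ : Subgroup G) u) η ψ₀ u) * (∑ ζ ∈ (hfb u).toFinset,
            mt (Cz (⊤ : Subgroup G) u) ψ₀ ζ * (ζ u / ζ 1) * (EE p (Cz (⊤ : Subgroup G) u) ζ η' * EE p (Cz (⊤ : Subgroup G) u) η' η)) := by
        intro η' h'
        have h'' := (hmem η').1 h'
        rw [hHNR p M hS G θ u hpu η hη'.1 (hsb η hη') η' h''.1 (hsb η' h''),
          hZAX p M hS G (Cz (⊤ : Subgroup G) u) θ η' h'' u huK hcen ψ₀ hψ₀.1, finsum_mem_eq_finite_toFinset_sum _ (hfb u), mul_assoc, Finset.sum_mul]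
        congr 1
        exact Finset.sum_congr rfl fun ζ _ => by ring
      rw [Finset.sum_congr rfl h1, ← Finset.mul_sum, Finset.sum_comm]
      have h2 : ∀ ζ ∈ (hfb u).toFinset, ∑ η' ∈ (hfb u).toFinset, mt (Cz (⊤ : Subgroup G) u) ψ₀ ζ * (ζ u / ζ 1) *
          (EE p (Cz (⊤ : Subgroup G) u) ζ η' * EE p (Cz (⊤ : Subgroup G) u) η' η) =
          mt (Cz (⊤ : Subgroup G) u) ψ₀ ζ * (ζ u / ζ 1) * EE p (Cz (⊤ : Subgroup G) u) ζ η := by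
        intro ζ hζ
        rw [← Finset.mul_sum, ← finsum_mem_eq_finite_toFinset_sum _ (hfb u), hQ1 ζ ((hmem ζ).1 hζ) η hη']
      rw [Finset.sum_congr rfl h2, ← finsum_mem_eq_finite_toFinset_sum _ (hfb u),
        ← hZAX p M hS G (Cz (⊤ : Subgroup G) u) θ η hη' u huK hcen ψ₀ hψ₀.1, mul_comm]
    rw [Finset.sum_congr rfl hin, hHGR p M hS G θ u ψ₀ hψ₀.1 ψ₀ hψ₀.1, finsum_mem_eq_finite_toFinset_sum _ (hfb u)]
  · rw [hgen u']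
    refine Finset.sum_eq_zero fun η hη => Finset.sum_eq_zero fun η' hη' => ?_
    rw [Set.Finite.mem_toFinset] at hη hη'
    rw [hHTO p M hS G D x θ χ lo u hu u' hu' ht η hη η' hη', mul_zero]

end Pool.Agent.BR
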